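import Pool.Agent.Y667.BK.Main

/-!
# Curves of rank zero: finiteness of the group of the rational points
-/

set_option autoImplicit false

namespace Pool.Agent.Y667.BK

open WeierstrassCurve Pool.Agent.TH841.SH

open Pool.Agent.W307.SE Pool.Agent.W307.RT
open Pool.Agent.W402.FK (coef dist roots cub)

lemma fg_pts {W : WeierstrassCurve ℚ} {a b c : ℤ} (h : IsR W (a : ℚ) (b : ℚ) (c : ℚ))
    (hab : a ≠ b) (hac : a ≠ c) (hbc : b ≠ c) : AddGroup.FG W.toAffine.Point := by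
  have qab : (a : ℚ) ≠ b := by exact_mod_cast hab
  have qac : (a : ℚ) ≠ c := by exact_mod_cast hac
  have qbc : (b : ℚ) ≠ c := by exact_mod_cast hbc
  have hW : W = Pool.Agent.H437R2.Man.MW.crv (-(a : ℚ)) (-(b : ℚ)) (-(c : ℚ)) := by
    apply WeierstrassCurve.ext
    · rw [h.h1]
      rfl
    · rw [h.h2]
      show _ = -(a : ℚ) + -(b : ℚ) + -(c : ℚ)
      ring
    · rw [h.h3]
      rfl
    · rw [h.h4]
      show _ = -(a : ℚ) * -(b : ℚ) + -(a : ℚ) * -(c : ℚ) + -(b : ℚ) * -(c : ℚ)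
      ring
    · rw [h.h6]
      show _ = -(a : ℚ) * -(b : ℚ) * -(c : ℚ)
      ring
  rw [hW]
  exact Pool.Agent.H437R2.Man.MW.pt_fg (fun h => qab (neg_injective h))
    (fun h => qac (neg_injective h)) (fun h => qbc (neg_injective h))

lemma finite_of_rk {A : Type} [AddCommGroup A] (hfg : AddGroup.FG A)
    (h : Module.finrank ℤ A = 0) : Finite A := by
  have h1 : Module.Finite ℤ A := Module.Finite.iff_addGroup_fg.2 hfg
  exact Module.finite_of_fg_torsion _ (Module.finrank_eq_zero_iff_isTorsion.1 h)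

/-- a curve with full rational 2-torsion and rank zero has finitely many rational points -/
lemma fin_pts {c : ℤ × ℤ} (hD : 4 * c.1 ^ 3 + 27 * c.2 ^ 2 ≠ 0) (hT : HasT 2 (Sh c.1 c.2))
    (h0 : D.rk (Sh c.1 c.2) = 0) : Finite (Sh c.1 c.2).toAffine.Point := by
  obtain ⟨F, -, hF⟩ := Pool.Agent.W513.FK.parf
  obtain ⟨-, -, -, -, -, e1, e2, e3, he, -, -⟩ := hF c hD hT
  obtain ⟨d12, d13, d23⟩ := dist c.1 c.2 e1 e2 e3 hD he
  exact finite_of_rk (fg_pts (isR_Sh he) d12 d13 d23) h0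

end Pool.Agent.Y667.BK
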