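import Pool.Agent.Y667.BK.Fin

/-!
# The `2 ^ ∞`-Selmer group of an elliptic curve over `ℚ`
-/

set_option autoImplicit false

namespace Pool.Agent.Y667.BK

open WeierstrassCurve Pool.Agent.TH841.SH.D

section

variable {k : Type} [Field k]

/-- the values of `f` have 2-power order -/
def IsTor2 (W : WeierstrassCurve k) (f : Coch W) : Prop := ∀ σ, ∃ m : ℕ, (2 ^ m : ℕ) • f σ = 0

/-- `f` is the coboundary of a point of 2-power order -/
def IsCobInf (W : WeierstrassCurve k) (f : Coch W) : Prop :=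
  ∃ P : Pt W (AlgebraicClosure k), (∃ m : ℕ, (2 ^ m : ℕ) • P = 0) ∧
    ∀ σ : Gal k, f σ = act W σ.toAlgHom P - P

lemma tor_add {A : Type} [AddCommGroup A] {x y : A} (hx : ∃ m : ℕ, (2 ^ m : ℕ) • x = 0)
    (hy : ∃ m : ℕ, (2 ^ m : ℕ) • y = 0) : ∃ m : ℕ, (2 ^ m : ℕ) • (x + y) = 0 := by
  obtain ⟨m, hm⟩ := hx
  obtain ⟨l, hl⟩ := hy
  refine ⟨m + l, ?_⟩
  rw [smul_add, pow_add, mul_comm, mul_smul, hm, smul_zero, mul_comm, mul_smul, hl, smul_zero,
    add_zero]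

lemma tor_neg {A : Type} [AddCommGroup A] {x : A} (hx : ∃ m : ℕ, (2 ^ m : ℕ) • x = 0) :
    ∃ m : ℕ, (2 ^ m : ℕ) • (-x) = 0 := by
  obtain ⟨m, hm⟩ := hx
  exact ⟨m, by rw [smul_neg, hm, neg_zero]⟩

/-- the group of the coboundaries of the points of 2-power order -/
def cobInf (W : WeierstrassCurve k) : AddSubgroup (Coch W) where
  carrier := {f | IsCobInf W f}
  zero_mem' := ⟨0, ⟨0, smul_zero _⟩, fun σ => by
    change (0 : Pt W (AlgebraicClosure k)) = act W σ.toAlgHom 0 - 0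
    rw [map_zero, sub_zero]⟩
  add_mem' := by
    rintro f g ⟨P, hP1, hP2⟩ ⟨Q, hQ1, hQ2⟩
    refine ⟨P + Q, tor_add hP1 hQ1, fun σ => ?_⟩
    change f σ + g σ = _
    rw [hP2, hQ2, map_add]
    abel
  neg_mem' := by
    rintro f ⟨P, hP1, hP2⟩
    refine ⟨-P, tor_neg hP1, fun σ => ?_⟩
    change -f σ = _
    rw [hP2, map_neg]
    abel

end

/-- `f` is a continuous cocycle with values in the points of 2-power order whose classes in
`H¹(ℚ_v, W)` are trivial for all the places `v` -/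
def IsSelInf (W : WeierstrassCurve ℚ) (f : Coch W) : Prop := IsShaCoc W f ∧ IsTor2 W f

/-- the group of the Selmer cocycles -/
def selInfCoc (W : WeierstrassCurve ℚ) : AddSubgroup (Coch W) where
  carrier := {f | IsSelInf W f}
  zero_mem' := ⟨sha_zero W, fun _ => ⟨0, smul_zero _⟩⟩
  add_mem' := fun ⟨a1, a2⟩ ⟨b1, b2⟩ => ⟨sha_add a1 b1, fun σ => tor_add (a2 σ) (b2 σ)⟩
  neg_mem' := fun ⟨a1, a2⟩ => ⟨sha_neg a1, fun σ => tor_neg (a2 σ)⟩

/-- the `2 ^ ∞`-Selmer group `ker (H¹(ℚ, W[2 ^ ∞]) → ∏ H¹(ℚ_v, W))` -/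
def SelInf (W : WeierstrassCurve ℚ) : Type := selInfCoc W ⧸ (cobInf W).addSubgroupOf (selInfCoc W)

/-- the group law -/
noncomputable instance SelInf.group (W : WeierstrassCurve ℚ) : AddCommGroup (SelInf W) :=
  @QuotientAddGroup.Quotient.addCommGroup (selInfCoc W) _ ((cobInf W).addSubgroupOf (selInfCoc W))

lemma fix_finite {W : WeierstrassCurve ℚ} (hfin : Finite W.toAffine.Point) :
    Finite (Fix fun σ : Gal ℚ => act W σ.toAlgHom) := by
  obtain ⟨j, -, -, hj⟩ := Pool.Agent.TH841.SH.exists_rat W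
  refine Finite.of_surjective (α := {q : W.toAffine.Point // ∀ σ : Gal ℚ,
    act W σ.toAlgHom (j q) = j q}) (fun q => ⟨j q.1, q.2⟩) (fun P => ?_)
  obtain ⟨q, hq⟩ := hj P.1 P.2
  refine ⟨⟨q, ?_⟩, Subtype.ext hq⟩
  rw [hq]
  exact P.2

/-- **The `2 ^ ∞`-Selmer group is zero.** -/
theorem selInf_zero {W : WeierstrassCurve ℚ} (hfin : Finite W.toAffine.Point)
    (hS : ∀ (k : ℕ) (x : Sha W), (2 ^ k : ℕ) • x = 0 → x = 0) : ∀ x : SelInf W, x = 0 := by
  have hFix := fix_finite hfin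
  intro x
  obtain ⟨⟨c, hc⟩, rfl⟩ := QuotientAddGroup.mk_surjective x
  refine (QuotientAddGroup.eq_zero_iff _).2 ?_
  rw [AddSubgroup.mem_addSubgroupOf]
  have hc' : IsSelInf W c := hc
  have hK : ∃ K : ℕ, ∀ σ, (2 ^ K : ℕ) • c σ = 0 := by
    have hrange : (Set.range c).Finite := hc'.1.1.1.range_finite
    choose m hm using hc'.2
    have hex : ∀ y ∈ Set.range c, ∃ k : ℕ, (2 ^ k : ℕ) • y = 0 := by
      rintro y ⟨σ, rfl⟩
      exact ⟨m σ, hm σ⟩
    choose! k hk using hex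
    obtain ⟨K, hK⟩ := (hrange.image k).bddAbove
    refine ⟨K, fun σ => ?_⟩
    have h1 := hk _ (Set.mem_range_self σ)
    have h2 : k (c σ) ≤ K := hK ⟨_, Set.mem_range_self σ, rfl⟩
    rw [← Nat.sub_add_cancel h2, pow_add, mul_smul, h1, smul_zero]
  obtain ⟨K, hK⟩ := hK
  have hcob : ∃ P, ∀ σ : Gal ℚ, c σ = act W σ.toAlgHom P - P := by
    obtain ⟨f, hf⟩ : ∃ f : shaCoc W, f.1 = c := ⟨⟨c, hc'.1⟩, rfl⟩
    have h0 : (2 ^ K : ℕ) • f = 0 := by
      apply Subtype.ext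
      rw [AddSubgroup.coe_nsmul, hf]
      funext σ
      exact hK σ
    have h1 : (2 ^ K : ℕ) • (QuotientAddGroup.mk f : Sha W) = 0 := by
      rw [← QuotientAddGroup.mk_nsmul, h0]
      rfl
    have h2 := hS K _ h1
    have h3 := (QuotientAddGroup.eq_zero_iff _).1 h2
    rw [AddSubgroup.mem_addSubgroupOf] at h3
    obtain ⟨P, hP⟩ := h3
    refine ⟨P, fun σ => ?_⟩
    rw [← hP σ, hf]
  obtain ⟨P, hP1, hP2⟩ := two_prim (fun σ : Gal ℚ => act W σ.toAlgHom) c K hK hcob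
  exact ⟨P, hP1, hP2⟩

/-- a finite group tensored with a divisible group is zero -/
theorem tensor_div_zero {A D : Type} [AddCommGroup A] [Finite A] [AddCommGroup D]
    (hD : ∀ (n : ℕ), n ≠ 0 → ∀ x : D, ∃ y : D, n • y = x) : ∀ x : TensorProduct ℤ A D, x = 0 := by
  intro x
  induction x using TensorProduct.induction_on with
  | zero => rfl
  | tmul a q =>
    have h1 : (Nat.card A : ℤ) • a = 0 := by
      rw [natCast_zsmul]
      exact card_nsmul_eq_zero'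
    obtain ⟨y, rfl⟩ := hD (Nat.card A) Nat.card_pos.ne' q
    rw [← natCast_zsmul, TensorProduct.tmul_smul, TensorProduct.smul_tmul', h1,
      TensorProduct.zero_tmul]
  | add x y hx hy => rw [hx, hy, add_zero]

/-- `ℚ₂ / ℤ₂` is divisible -/
lemma pruf_div (n : ℕ) (hn : n ≠ 0) (x : Pruf) : ∃ y : Pruf, n • y = x := by
  obtain ⟨q, rfl⟩ := QuotientAddGroup.mk_surjective x
  refine ⟨QuotientAddGroup.mk (q / n), ?_⟩
  rw [← QuotientAddGroup.mk_nsmul, nsmul_eq_mul, mul_div_cancel₀]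
  exact_mod_cast hn

end Pool.Agent.Y667.BK
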